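import Pool.Agent.FS.OddVenn.Polar

/-! Simple rotationally symmetric independent families of curves for every odd number. The plane is `ℂ`. -/

set_option autoImplicit false

namespace Pool.Agent.Lib.MP_80d9dd_co.Variants.OddFamilies

open Set

/-- A simple closed curve: the image of the circle under a continuous injective map. -/
def IsJordanCurve (C : Set ℂ) : Prop :=
  ∃ f : Circle → ℂ, Continuous f ∧ Function.Injective f ∧ range f = C

/-- `I` is the interior and `O` the exterior of `C`: the complement of `C` is the disjoint union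
of the open connected sets `I` (bounded) and `O` (unbounded), and `C` is the boundary of both. -/
structure InsideOutside (C I O : Set ℂ) : Prop where
  union : Cᶜ = I ∪ O
  disjoint : Disjoint I O
  open_in : IsOpen I
  open_out : IsOpen O
  connected_in : IsConnected I
  connected_out : IsConnected O
  bounded_in : Bornology.IsBounded I
  unbounded_out : ¬Bornology.IsBounded O
  frontier_in : frontier I = C
  frontier_out : frontier O = C

/-- The rotation about `p` by the angle `θ`. -/
noncomputable def rot (p : ℂ) (θ : ℝ) (z : ℂ) : ℂ := p + Complex.exp (θ * Complex.I) * (z - p)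

open Pool.Agent.Lib.MP_80d9dd_co Pool.Agent.FS.OddVenn in
theorem result (n : ℕ) (hn : 3 ≤ n) (hodd : Odd n) :
    ∃ (C I O : Fin n → Set ℂ) (p : ℂ),
      (∀ i, IsJordanCurve (C i) ∧ InsideOutside (C i) (I i) (O i)) ∧
      (∀ i j, i ≠ j → (C i ∩ C j).Finite) ∧
      (∀ S : Set (Fin n), ((⋂ i ∈ S, I i) ∩ ⋂ i ∉ S, O i).Nonempty ∧
        ∃ F : Finset (Set ℂ), F.card ≤ n / n.minFac ∧ (∀ R ∈ F, IsConnected R) ∧
          ⋃₀ (F : Set (Set ℂ)) = (⋂ i ∈ S, I i) ∩ ⋂ i ∉ S, O i) ∧
      (∀ (z : ℂ) i j k, z ∈ C i → z ∈ C j → z ∈ C k → i = j ∨ j = k ∨ i = k) ∧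
      (∀ i j : Fin n, (j : ℕ) = (i + 1) % n → C j = rot p (2 * Real.pi / n) '' C i) ∧
      (∀ i j, ∃ e : ℂ ≃ᵢ ℂ, e '' C i = C j) ∧
      (∀ (z : ℂ) i j, i ≠ j → z ∈ C i → z ∈ C j →
        z ∈ closure (C j ∩ I i) ∧ z ∈ closure (C j ∩ O i)) := by
  obtain ⟨Φ, ψ, h⟩ := polar_of_odd n hn hodd
  refine ⟨fun i => Cu (ψ i), fun i => In (ψ i), fun i => Ou (ψ i), 0,
    fun i => ⟨Cu_circle (h.cont i) (h.per i), compl_Cu (h.per i), disjoint_In_Ou (h.per i),
      isOpen_In (h.cont i) (h.per i), isOpen_Ou (h.cont i), isConnected_In,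
      isConnected_Ou (h.cont i), bounded_In (h.cont i) (h.per i), not_bounded_Ou,
      frontier_In (h.cont i) (h.per i), frontier_Ou (h.cont i) (h.per i)⟩,
    fun i j hij => h.finite hij, fun S => h.region S,
    fun z i j k => h.simple, fun i j hij => ?_, h.congruent,
    fun z i j hij => h.cross hij⟩
  have e : rot 0 (2 * Real.pi / n) =
      fun z => Complex.exp (2 * Real.pi / n * Complex.I) * z := by
    funext z
    simp [rot]
  rw [e]
  exact h.rot hij

end Pool.Agent.Lib.MP_80d9dd_co.Variants.OddFamilies
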